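import Pool.Agent.Helper98_CC.Stmts
import Pool.Agent.Helper48_WRA.Dzu
import Pool.Agent.Helper44_WRA.Kill
import Pool.Agent.Helper83_WRA.Pos
import Pool.Agent.Helper83_WRA.LabSum

/-!
CC, module DZ1: the alternating sum of a block of defect zero is one.
-/

open scoped BigOperators

noncomputable section

namespace Pool.Agent.Helper87_CC

open Pool.Agent.Helper51_AWC Pool.Agent.Helper79_WRA Pool.Agent.Helper98_CC

/-- only the trivial chain contributes -/
theorem dz1 : Dz1Stmt := by
  intro ℓ hp M hM hℓ G _ _ hop χ hχ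
  classical
  obtain ⟨hχI, hχD⟩ := hχ
  obtain ⟨g, hg, hg0⟩ := (H83.pos ℓ M hℓ G hop).2.2.2 χ hχI hχD
  have hs := H83.labSum ℓ M G hop χ hχI
  have hmem : ({⊥} : Finset (Subgroup G)) ∈ chainsOn (psub ℓ G) ⊥ := by
    rw [mem_chainsOn]
    refine ⟨?_, Finset.mem_singleton_self _, ?_⟩
    · intro D hD
      rw [Finset.mem_singleton] at hD
      subst hD
      rw [mem_psub]
      exact ⟨by rw [hop], IsPGroup.of_bot⟩
    · rw [Finset.coe_singleton]
      exact Set.subsingleton_singleton.isChain
  rw [Finset.sum_eq_single_of_mem _ hmem] at hs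
  · have h1 : stab ({⊥} : Finset (Subgroup G)) = ⊤ := by
      rw [eq_top_iff]
      intro x _
      rw [mem_stab]
      intro D hD
      rw [Finset.mem_singleton] at hD
      subst hD
      unfold conjS
      exact Subgroup.map_bot _
    have h2 : {a | a ∈ IrrS (stab ({⊥} : Finset (Subgroup G))) ∧ labF M a = labF M χ} =
        {χ} := by
      ext a
      rw [h1]
      constructor
      · rintro ⟨ha, hl⟩
        exact (H48.dzu H83.pos ℓ M hℓ G hop χ ⟨hχI, hχD⟩ a (mem_IrrS_top.1 ha) hl.symm).symm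
      · rintro rfl
        exact ⟨mem_IrrS_top.2 hχI, rfl⟩
    rw [h2, Set.ncard_singleton, h1, Finset.card_singleton, Subgroup.card_top] at hs
    have h3 : (Nat.card G : ℤ) ≠ 0 := by exact_mod_cast Nat.card_pos.ne'
    have h4 : (Nat.card G : ℤ) * altSum ℓ M χ = (Nat.card G : ℤ) * 1 := by
      rw [← hs]; ring
    exact mul_left_cancel₀ h3 h4
  · intro d hd hne
    obtain ⟨d1, d2, d3⟩ := mem_chainsOn.1 hd
    have hD : ∃ D ∈ d, D ≠ ⊥ := by
      by_contra hcon
      push Not at hcon
      apply hne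
      ext D
      rw [Finset.mem_singleton]
      exact ⟨hcon D, fun h => h ▸ d2⟩
    have h0 : {a | a ∈ IrrS (stab d) ∧ labF M a = labF M χ} = ∅ := by
      rw [Set.eq_empty_iff_forall_notMem]
      rintro a ⟨ha, hl⟩
      apply hg0
      rw [← hl]
      exact H48.dzn H44.kill ℓ M hℓ G d (fun D hD => (mem_psub.1 (d1 hD)).2) d3 hD a ha g hg
    rw [h0, Set.ncard_empty]
    simp

end Pool.Agent.Helper87_CC
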